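import Pool.Agent.V1178.FH.AJ

/-!
# Kernels of Abel-Jacobi maps: bounded dimension, commuting correspondences, free groups

Fix the dimension `n`, the codimension `m`, a class `P` of smooth projective varieties over a number
field (for example all of them) and an Abel-Jacobi map, for example the `p`-adic étale one. Each of
the following conditions is equivalent to the injectivity of the Abel-Jacobi map for all varieties of
dimension `n` in `P`:

* on all varieties `X` of dimension `n` the cycles which come from elements of the kernel of the
  Abel-Jacobi map of varieties in `P` contain at most `D` linearly independent ones, `D` independent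
  of `X` (if `P` contains all varieties: the dimension of the kernel is at most `D`);
* for all `X` the self-correspondences of `X` which factor through varieties in `P` commute on the
  kernel, or satisfy some nonzero multilinear polynomial identity there;
* for all `X` and self-correspondences `W_0`, `W_1` of `X` which factor through varieties in `P` and
  satisfy `W_i ∘ W_i = 0`, the automorphisms `1 + W_0`, `1 + W_1` of the Chow motive of `X` do not
  generate freely a free group of automorphisms of the kernel.
-/

set_option autoImplicit false

open CategoryTheory AlgebraicGeometry

universe u v w

namespace Pool.Agent.Results.MP_386e47_ag.BoundedKernels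

open Pool.Agent.H914 Pool.Agent.H914.VarClass Pool.Agent.H914.VarClass.Obj Pool.Agent.W492.BB
  Pool.Agent.TH133 Pool.Agent.V1157.KF Pool.Agent.V1157.RC Pool.Agent.V1178.FH

/-- **Injectivity of the Abel-Jacobi map.** Let `P` be a class of varieties of which those of
dimension `n` have sufficiently general complete intersections in `S × S` and in the powers of `S`
(`HasIntersection` and `HasPower`, consequences of the theorem of Bertini). The six conditions are
equivalent. -/
theorem result {k : Type u} [Field k] {𝒱 : VarClass k} {C : TheoryData.{u, v, 0} 𝒱 ℚ}
    [IsChowProj C] {K : Type w} [Field K] {H : WeilTheoryData.{u, v, w} C K} [IsWeilProj H]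
    (n m : ℕ) (a : AbelJacobi.{u, v, w} H n m) (P : 𝒱.Obj → Prop)
    (hI : ∀ S : 𝒱.Obj, P S → S.dim = n → HasIntersection C n S S)
    (hB : ∀ (S : 𝒱.Obj) (N : ℕ), P S → S.dim = n → HasPower C n N S) :
    List.TFAE (Injectivity a P :: conditions P n (kerAJ a)) :=
  aj_all a hI hB

end Pool.Agent.Results.MP_386e47_ag.BoundedKernels
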