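import Pool.Agent.V11182.GA.Main
import Pool.Agent.V1157.AK.Defs

/-!
# Kernels of `p`-adic Abel-Jacobi maps: powers, eigenvalues and group actions of correspondences

Fix the dimension `n` and the codimension `m`, and an Abel-Jacobi map `AJ` for the varieties of
dimension `n` and their homologically trivial cycles of codimension `m` (with rational
coefficients), compatible with pull-backs and push-forwards, for example the `p`-adic etale
Abel-Jacobi map over a number field. The injectivity of `AJ` for all motives `(X, e, m)`, `X` of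
dimension `n`, follows from a very weak condition on every single self-correspondence `W` of degree
zero of the varieties `X` on the kernel of `AJ` (short orbits, no nilpotency of index exactly
`D + 1`, or at most `D` rational eigenvalues, for one number `D`). It is also equivalent to the
statement that one group `G`, which may be any group with a nontrivial finite dimensional
representation over `ℚ`, for example any finite group `G ≠ 1`, has no nontrivial actions on the
kernels by correspondences.
-/

set_option autoImplicit false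

open CategoryTheory AlgebraicGeometry

universe u v w

namespace Pool.Agent.Results.MP_386e47_ag.GroupActionsAndPowers

open Pool.Agent.H914 Pool.Agent.H914.VarClass Pool.Agent.H914.VarClass.Obj Pool.Agent.W492.BB
  Pool.Agent.W550.Corr Pool.Agent.TH133 Pool.Agent.Y148.BB Pool.Agent.V1157.KF
  Pool.Agent.V1157.AK Pool.Agent.V11182.GA

section defs

variable {k : Type u} [Field k] {𝒱 : VarClass k} {C : TheoryData.{u, v, 0} 𝒱 ℚ} {K : Type w}
    [Field K] {H : WeilTheoryData.{u, v, w} C K} {n m : ℕ}

/-- `AJ` is injective for all motives `M = (X, e, m)`, `X` of dimension `n`, `e` an idempotent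
self-correspondence of degree zero of `X`: a class `z` in `CH(M)^0 = e_* CH^m(X)^0` with `AJ(z) = 0`
is zero. -/
def MotInjective (h : AbelJacobi.{u, v, w} H n m) : Prop :=
  ∀ (X : 𝒱.Obj) (e : C.A (X.prod X)) (z : C.A X), X.dim = n → C.Deg n e → C.comp e e = e →
    InKernel h X z → C.act e z = z → z = 0

/-- The self-correspondences of degree zero of the varieties of dimension `n`. -/
def Self (C : TheoryData.{u, v, 0} 𝒱 ℚ) (n : ℕ) (X : 𝒱.Obj) (W : C.A (X.prod X)) : Prop :=
  C.Deg n W

end defs

theorem result {k : Type u} [Field k] {𝒱 : VarClass k} {C : TheoryData.{u, v, 0} 𝒱 ℚ}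
    [IsChowProj C] {K : Type w} [Field K] {H : WeilTheoryData.{u, v, w} C K} [IsWeilProj H]
    (n m : ℕ) (h : AbelJacobi.{u, v, w} H n m)
    (hP : ∀ (S : 𝒱.Obj) (N : ℕ), S.dim = n → HasPower C n N S) :
    (∀ D : ℕ, 1 ≤ D → (MotInjective h ↔ ShortOrbits C (InKernel h) (Self C n) n D)) ∧
    (∀ D : ℕ, 1 ≤ D → (MotInjective h ↔ NoIndex C (InKernel h) (Self C n) n D)) ∧
    (∀ D : ℕ, 1 ≤ D → (MotInjective h ↔ FewEigenvalues C (InKernel h) (Self C n) n D)) ∧
    (∀ (G : Type) [Monoid G] (N : ℕ) (ρ : G →* Matrix (Fin N) (Fin N) ℚ) (g : G), ρ g ≠ 1 →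
      (MotInjective h ↔ TrivialActions C (InKernel h) (Self C n) n G)) ∧
    (∀ (G : Type) [Group G] [Finite G] [Nontrivial G],
      MotInjective h ↔ TrivialActions C (InKernel h) (Self C n) n G) := by
  have hall : MotInjective h → ∀ (X : 𝒱.Obj) (x : C.A X), X.dim = n → InKernel h X x → x = 0 := by
    intro h0 X x hX hx
    exact h0 X (dg C X) x hX (gr_congr (by rw [hX]) (dg_mem C X)) (comp_dg C _) hx (act_dg C x)
  have hm := main (C := C) (R := InKernel h) (A := Self C n) (n := n) (Vn := MotInjective h) ?_ ?_
  · exact ⟨hm.1, hm.2.1, hm.2.2.2.1, hm.2.2.2.2.1, hm.2.2.2.2.2⟩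
  · intro h0 X hX W hW α hα
    rw [hall h0 X α hX hα, C.act_map_zero]
  · intro h0
    unfold MotInjective at h0
    push Not at h0
    obtain ⟨S, e, x, hS, -, -, hx, -, hx0⟩ := h0
    refine units_of (H := H) (m := m) (fun h => h.1) ?_ ?_ hS hx hx0 (fun N => hP S N hS) ?_
    · intro X Y f y hX hY hy
      exact ⟨hy.1.pull, (h.φ_up f hX hY hy.1).trans (by rw [hy.2, h.up_zero])⟩
    · intro X Y f x hX hY hx
      exact ⟨hx.1.push hX hY, (h.φ_down f hX hY hx.1).trans (by rw [hx.2, h.down_zero])⟩
    · intro V ι _ p c hV
      exact Submodule.sum_mem _ fun i _ => Submodule.sum_mem _ fun j _ =>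
        Submodule.smul_mem _ _ (mt_mem hS hV _ _)

end Pool.Agent.Results.MP_386e47_ag.GroupActionsAndPowers
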