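import Pool.Agent.V1126.BN.Cmp

/-!
# Kernels of `p`-adic Abel-Jacobi maps for two primes
-/

open CategoryTheory AlgebraicGeometry

universe u v w

namespace Pool.Agent.Results.MP_386e47_ag.KernelsForTwoPrimes

open Pool.Agent.H914 Pool.Agent.H914.VarClass Pool.Agent.H914.VarClass.Obj Pool.Agent.W492.BB
  Pool.Agent.TH133 Pool.Agent.V1157.KF Pool.Agent.V1157.AK Pool.Agent.V1126.BN

/-- Fix a number field, the dimension `n`, the codimension `m` and two primes `p`, `p'`. Let `N(X)`
and `N'(X)` be the kernels of the `p`-adic and of the `p'`-adic étale Abel-Jacobi map on the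
homologically trivial cycles (with rational coefficients) of codimension `m` on the variety `X` of
dimension `n`. The following are equivalent:
1. `N(X)` is contained in `N'(X)` for all `X` of dimension `n`;
2. for some `D` the image of `N(X)` modulo `N'(X)` has dimension at most `D`, for all these `X`;
3. for all these `X` the self-correspondences of degree zero (mapping `N(X)` to itself) commute on
   `N(X)` modulo `N'(X)`;
4. for all these `X` and all self-correspondences `E_0, E_1` of degree zero of `X` whose squares are
   zero on `N(X)` the unipotent bijections `1 + E_0` and `1 + E_1` of `N(X)` satisfy a nontrivial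
   relation modulo `N'(X)` (depending on `X`, `E_0` and `E_1`).
If the `p'`-adic Abel-Jacobi maps are injective for all `X` of dimension `n`, then these conditions
hold if and only if the `p`-adic Abel-Jacobi maps are injective for all `X` of dimension `n`. -/
theorem result {k : Type u} [Field k] {𝒱 : VarClass k} {C : TheoryData.{u, v, 0} 𝒱 ℚ}
    [IsChowProj C] {K : Type w} [Field K] {H : WeilTheoryData.{u, v, w} C K} [IsWeilProj H]
    (n m : ℕ) (a b : AbelJacobi.{u, v, w} H n m)
    (hP : ∀ (S : 𝒱.Obj) (N : ℕ), S.dim = n → HasPower C n N S) :
    List.TFAE [KernelLe a b, ∃ D, BoundedMod a b D, CommutingMod a b, NoFreePairsMod a b] ∧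
      (AllInjective b → (KernelLe a b ↔ AllInjective a)) :=
  ⟨cmp_tfae a b hP, le_iff_injective a b⟩

end Pool.Agent.Results.MP_386e47_ag.KernelsForTwoPrimes
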