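import Pool.Agent.H255R.MR.Map

/-!
# The p-adic etale Abel-Jacobi map for products of regular surfaces and for products of curves
-/

open CategoryTheory AlgebraicGeometry

universe u v w x

namespace Pool.Agent.Results.MP_386e47_ag.RegularSurfaces

open Pool.Agent.H914 Pool.Agent.H914.VarClass Pool.Agent.H914.VarClass.Obj Pool.Agent.W492.BB
  Pool.Agent.W550.Corr Pool.Agent.TH133 Pool.Agent.H255R.HR Pool.Agent.H255R.MR

/-- The `p`-adic Abel-Jacobi map `φ` of the variety `X` is injective in codimension at most `R` (the
homologically trivial cycle classes of codimension `r` are those of the family `𝓜`). -/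
def AJInjective {k : Type u} [Field k] {𝒱 : VarClass k} {C : TheoryData.{u, v, 0} 𝒱 ℚ}
    {M D : ModData.{u, v, x} C} (φ : ∀ X, M.A X → D.A X) (𝓜 : Fam M) (R : ℤ) (X : 𝒱.Obj) : Prop :=
  ∀ r ≤ R, ∀ z : M.A X, 𝓜.Mem X r z → φ X z = 0 → z = 0

/-- Consider the smooth projective varieties `X` over `ℚ̄`. Let `M(X)` be the sum of the groups
`CH^r(X)_ℚ^0` of the homologically trivial cycles, let `D(X)` be the sum over `r` of the direct limits
of the groups `H^1(K, H^{2r-1}(X, ℚ_p(r)))`, over the number fields `K` and the models of `X` over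
`K`, and let `φ` be the `p`-adic etale Abel-Jacobi map. (The restriction maps of the groups
`H^1(K, -)` with rational coefficients are injective, and so are those of the rational Chow
groups; therefore `φ` is injective if and only if the `p`-adic Abel-Jacobi maps of all models of `X`
over number fields are injective.) More generally, let `φ : M → D` be a transformation of module
theories over the Chow groups, where `M` is graded by the codimension.

Let `𝒞` be a class of curves with `HasGalQuotients` (for example all curves, or one hyperelliptic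
curve). For all varieties `U` and all `R` and `N` the following statements are equivalent.

1. The `p`-adic Abel-Jacobi maps in codimension at most `R` are injective for the varieties `U × A`
and `U × A × S`, where `A` is a product of at most `N` regular surfaces dominated by products of two
curves in `𝒞`, and `S` is a curve in `𝒞`.
2. The same without the condition that the surfaces be regular.
3. The `p`-adic Abel-Jacobi maps in codimension at most `R` are injective for `U × W`, where `W` is a
product of at most `2 N + 1` curves in `𝒞`.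
4. The `p`-adic Abel-Jacobi maps in codimension at most `R` are injective for all varieties which are
dominated by varieties `U × W` as in 3. -/
theorem result {k : Type u} [Field k] {𝒱 : VarClass k} (C : TheoryData.{u, v, 0} 𝒱 ℚ)
    [IsChowProj C] {F : Type w} [Field F] [CharZero F] (H : WeilTheoryData.{u, v, w} C F)
    [IsWeilProj H] (M D : ModData.{u, v, x} C) (hM : IsModTheory M) (hD : IsModTheory D)
    (φ : ∀ X, M.A X → D.A X) (hφ : IsTransformation M D φ) (𝓜 : Fam M)
    (𝒞 : 𝒱.Obj → Prop) (hG : HasGalQuotients.{u, v, w, x} H 𝒞) (U : 𝒱.Obj) (R : ℤ) (N : ℕ) :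
    List.TFAE [
      ∀ m ≤ N, ∀ A : 𝒱.Obj, IsProdOf U (IsRegDominated.{u, v, w, x} H 𝒞) m A →
        AJInjective φ 𝓜 R A ∧ ∀ S : 𝒱.Obj, 𝒞 S → AJInjective φ 𝓜 R (A.prod S),
      ∀ m ≤ N, ∀ A : 𝒱.Obj, IsProdOf U (IsDominated.{u, v, x} C 𝒞) m A →
        AJInjective φ 𝓜 R A ∧ ∀ S : 𝒱.Obj, 𝒞 S → AJInjective φ 𝓜 R (A.prod S),
      ∀ l ≤ 2 * N + 1, ∀ W : 𝒱.Obj, IsProdOf U 𝒞 l W → AJInjective φ 𝓜 R W,
      ∀ l ≤ 2 * N + 1, ∀ W X : 𝒱.Obj, IsProdOf U 𝒞 l W → IsDominatedBy C W X → AJInjective φ 𝓜 R X] :=
  tfae1 (M := M) (𝓜 := kerFam hφ 𝓜) (𝓝 := zeroFam M) hG U R N _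
    fun X => (good_inj hφ 𝓜 R X).symm

end Pool.Agent.Results.MP_386e47_ag.RegularSurfaces
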